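import Pool.Agent.Y874.TP.Stm
import Pool.Agent.Y468.SR.Main

/-!
# Job 4564 (TP-MID): planarity of the diagram after the move of type II
-/

set_option autoImplicit false

namespace Pool.Agent.Y333.TP

open Pool.Agent.Y468.SR Pool.Agent.Y874.TP

section run
variable {S : Type} {back front back' front' : Pass → S}

theorem run_flat {blk : Pass → List Pass} {w : List Pass} {s t : S}
    (h : ∀ q ∈ w, Run back' front' (back q) (blk q) (front q))
    (hr : Run back front s w t) : Run back' front' s (w.flatMap blk) t := by
  induction w generalizing s with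
  | nil => exact hr
  | cons q w ih =>
    rw [List.flatMap_cons]
    obtain ⟨h1, h2⟩ := hr
    refine run_append.2 ⟨front q, ?_, ih (fun x hx => h x (List.mem_cons_of_mem _ hx)) h2⟩
    rw [h1]
    exact h q List.mem_cons_self

theorem run_unflat {blk : Pass → List Pass} {w : List Pass} {s t : S}
    (h : ∀ q ∈ w, ∀ s t, Run back' front' s (blk q) t → s = back q ∧ front q = t)
    (hr : Run back' front' s (w.flatMap blk) t) : Run back front s w t := by
  induction w generalizing s with
  | nil => exact hr
  | cons q w ih =>
    rw [List.flatMap_cons] at hr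
    obtain ⟨m, h1, h2⟩ := run_append.1 hr
    obtain ⟨h3, h4⟩ := h q List.mem_cons_self _ _ h1
    refine ⟨h3, ?_⟩
    rw [h4]
    exact ih (fun x hx => h x (List.mem_cons_of_mem _ hx)) h2

theorem run_blk {blk : Pass → List Pass} {w : List Pass} {s t : S}
    (hr : Run back' front' s (w.flatMap blk) t) {q : Pass} (hq : q ∈ w) :
    ∃ s t, Run back' front' s (blk q) t := by
  obtain ⟨w1, w2, rfl⟩ := List.append_of_mem hq
  rw [List.flatMap_append, List.flatMap_cons] at hr
  obtain ⟨m, h1, h2⟩ := run_append.1 hr
  obtain ⟨m', h3, h4⟩ := run_append.1 h2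
  exact ⟨m, m', h3⟩

theorem closed_next {a c : List Pass} {p r : Pass} (h : Closed back front (a ++ p :: r :: c)) :
    front p = back r := by
  obtain ⟨s, h⟩ := h
  obtain ⟨m, -, h2⟩ := run_append.1 h
  exact h2.2.1

end run

/-- the strand crossing at `q` comes from the right -/
def sg (q : Pass) : Bool := q.isOver == q.isPos

theorem mate_corner (q : Pass) (f l : Bool) :
    q.mate.corner f l = q.corner (xor l (sg q)) (xor (!f) (sg q)) := by
  rcases q with ⟨c, o, s⟩
  cases o <;> cases s <;> cases f <;> cases l <;> rfl

theorem corner_fst (q : Pass) (f l : Bool) : (q.corner f l).1 = q.crossing := by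
  unfold Pass.corner
  split_ifs <;> rfl

/-- which corner, seen from `q` -/
def loc (q : Pass) (k : ℕ × Bool × Bool) : Bool × Bool :=
  if q.isOver then (xor k.2.2 q.isPos, k.2.1) else (xor (!k.2.1) q.isPos, k.2.2)

theorem loc_corner (q : Pass) (f l : Bool) : loc q (q.corner f l) = (f, l) := by
  rcases q with ⟨c, o, s⟩
  cases o <;> cases s <;> cases f <;> cases l <;> rfl

theorem mate_ne (p : Pass) : p.mate ≠ p := by
  intro h
  have h1 := congrArg Pass.isOver h
  rcases p with ⟨c, o, s⟩
  cases o <;> cases h1

section
variable (p r : Pass) (tc : Bool) (na nb : ℕ)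

/-- the new passages of the finger -/
def pA : Pass := ⟨na, tc, !sgn p r tc⟩
def pB : Pass := ⟨nb, tc, sgn p r tc⟩

theorem par_eq : par p r = (sg p == sg r) := rfl

theorem sgn_eq : sgn p r tc = xor tc (sg r) := by
  unfold sgn
  rw [par_eq]
  change xor tc (xor (sg p) (!(sg p == sg r))) = _
  generalize sg p = x
  generalize sg r = y
  cases tc <;> cases x <;> cases y <;> rfl

theorem sg_A : sg (pA p r tc na) = sg r := by
  unfold pA
  rw [sgn_eq]
  change (tc == !(xor tc (sg r))) = _
  generalize sg r = y
  cases tc <;> cases y <;> rfl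

theorem sg_B : sg (pB p r tc nb) = !sg r := by
  unfold pB
  rw [sgn_eq]
  change (tc == (xor tc (sg r))) = _
  generalize sg r = y
  cases tc <;> cases y <;> rfl

theorem ext2_pm : ext2 p r tc na nb p.mate = [pA p r tc na, pB p r tc nb, p.mate] := by
  unfold ext2
  rw [if_pos rfl]
  rfl

theorem ext2_rm (h : p.crossing ≠ r.crossing) : ext2 p r tc na nb r.mate =
    if par p r then [(pA p r tc na).mate, (pB p r tc nb).mate, r.mate]
      else [r.mate, (pB p r tc nb).mate, (pA p r tc na).mate] := by
  unfold ext2
  rw [if_neg (fun e : r.mate = p.mate =>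
    h (congrArg Pass.crossing e : r.mate.crossing = p.mate.crossing).symm), if_pos rfl]
  rfl

theorem ext2_o {q : Pass} (h1 : q ≠ p.mate) (h2 : q ≠ r.mate) : ext2 p r tc na nb q = [q] := by
  unfold ext2
  rw [if_neg h1, if_neg h2]

theorem mem_ext2 (q : Pass) : q ∈ ext2 p r tc na nb q := by
  unfold ext2
  split_ifs <;> simp

theorem passes_mid (D : Code) :
    passes (mid p r tc na nb D) = (passes D).flatMap (ext2 p r tc na nb) := by
  induction D with
  | nil => rfl
  | cons C D ih =>
    have h : mid p r tc na nb (C :: D) =
      (C.1.flatMap (ext2 p r tc na nb), C.2) :: mid p r tc na nb D := rfl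
    rw [h, passes_cons, passes_cons, List.flatMap_append, ih]

variable (u : ℕ × Bool × Bool → ℤ) (tri bet : ℤ)

/-- the new function on the corners -/
def nu (k : ℕ × Bool × Bool) : ℤ :=
  if k.1 = p.crossing then (if loc p k = (true, !sg p) then tri else u k)
  else if k.1 = r.crossing then (if loc r k = (false, !sg p) then tri else u k)
  else if k.1 = na then
    (if (loc (pA p r tc na) k).2 = sg p then
      (if (loc (pA p r tc na) k).1 = true then bet else u (p.corner false (!sg p)))
     else (if (loc (pA p r tc na) k).1 = true then u (r.corner true (!sg p))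
      else u (p.corner true (!sg p))))
  else if k.1 = nb then
    (if (loc (pB p r tc nb) k).2 = sg p then
      (if (loc (pB p r tc nb) k).1 = true then u (p.corner false (!sg p)) else bet)
     else (if (loc (pB p r tc nb) k).1 = true then tri else u (r.corner true (!sg p))))
  else u k

theorem nu_p (f l : Bool) : nu p r tc na nb u tri bet (p.corner f l) =
    if (f, l) = (true, !sg p) then tri else u (p.corner f l) := by
  unfold nu
  rw [if_pos (corner_fst _ _ _), loc_corner]

theorem nu_r (h : p.crossing ≠ r.crossing) (f l : Bool) :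
    nu p r tc na nb u tri bet (r.corner f l) =
    if (f, l) = (false, !sg p) then tri else u (r.corner f l) := by
  unfold nu
  rw [if_neg (by rw [corner_fst]; exact h.symm), if_pos (corner_fst _ _ _), loc_corner]

theorem nu_A (h1 : p.crossing ≠ na) (h2 : r.crossing ≠ na) (f l : Bool) :
    nu p r tc na nb u tri bet ((pA p r tc na).corner f l) =
    if l = sg p then (if f = true then bet else u (p.corner false (!sg p)))
      else (if f = true then u (r.corner true (!sg p)) else u (p.corner true (!sg p))) := by
  unfold nu
  rw [if_neg (by rw [corner_fst]; exact h1.symm), if_neg (by rw [corner_fst]; exact h2.symm),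
    if_pos (show ((pA p r tc na).corner f l).1 = na from corner_fst _ _ _), loc_corner]

theorem nu_B (h1 : p.crossing ≠ nb) (h2 : r.crossing ≠ nb) (h3 : na ≠ nb) (f l : Bool) :
    nu p r tc na nb u tri bet ((pB p r tc nb).corner f l) =
    if l = sg p then (if f = true then u (p.corner false (!sg p)) else bet)
      else (if f = true then tri else u (r.corner true (!sg p))) := by
  unfold nu
  rw [if_neg (by rw [corner_fst]; exact h1.symm), if_neg (by rw [corner_fst]; exact h2.symm),
    if_neg (by rw [corner_fst]; exact h3.symm),
    if_pos (show ((pB p r tc nb).corner f l).1 = nb from corner_fst _ _ _), loc_corner]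

theorem nu_o {q : Pass} (h1 : q.crossing ≠ p.crossing) (h2 : q.crossing ≠ r.crossing)
    (h3 : q.crossing ≠ na) (h4 : q.crossing ≠ nb) (f l : Bool) :
    nu p r tc na nb u tri bet (q.corner f l) = u (q.corner f l) := by
  unfold nu
  rw [if_neg (by rw [corner_fst]; exact h1), if_neg (by rw [corner_fst]; exact h2),
    if_neg (by rw [corner_fst]; exact h3), if_neg (by rw [corner_fst]; exact h4)]

/-- the flow on the old diagram, before `p` and `r` are changed -/
def bkD (b : Pass → ℤ) (q : Pass) : ℤ :=
  if q = p.mate then b (pA p r tc na)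
  else if q = r.mate then (if par p r then b (pA p r tc na).mate else b q) else b q
def frD (f : Pass → ℤ) (q : Pass) : ℤ :=
  if q = r.mate then (if par p r then f q else f (pA p r tc na).mate) else f q

end

/-- the new diagram is well formed -/
theorem wf_mid {D : Code} {p r : Pass} (tc : Bool) {na nb : ℕ} (hW : WellFormed D)
    (hpD : p ∈ passes D) (hrD : r ∈ passes D) (hpr : p.crossing ≠ r.crossing) (hab : na ≠ nb)
    (hnew : ∀ q ∈ passes D, q.crossing ≠ na ∧ q.crossing ≠ nb) :
    WellFormed (mid p r tc na nb D) := by
  have hpm := hW.1 p hpD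
  have hrm := hW.1 r hrD
  unfold WellFormed
  rw [passes_mid]
  have hsub : ∀ q ∈ passes D, ∀ x ∈ ext2 p r tc na nb q,
      x ∈ (passes D).flatMap (ext2 p r tc na nb) := fun q hq x hx =>
    List.mem_flatMap.2 ⟨q, hq, hx⟩
  constructor
  · intro x hx
    obtain ⟨q, hq, hx⟩ := List.mem_flatMap.1 hx
    by_cases h1 : q = p.mate
    · rw [h1, ext2_pm] at hx
      simp only [List.mem_cons, List.not_mem_nil, or_false] at hx
      rcases hx with rfl | rfl | rfl
      · refine hsub _ hrm _ ?_
        rw [ext2_rm _ _ _ _ _ hpr]
        split_ifs <;> simp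
      · refine hsub _ hrm _ ?_
        rw [ext2_rm _ _ _ _ _ hpr]
        split_ifs <;> simp
      · exact hsub _ (hW.1 _ hpm) _ (mem_ext2 _ _ _ _ _ _)
    · by_cases h2 : q = r.mate
      · rw [h2, ext2_rm _ _ _ _ _ hpr] at hx
        have hx' : x = (pA p r tc na).mate ∨ x = (pB p r tc nb).mate ∨ x = r.mate := by
          split_ifs at hx
          · simpa using hx
          · simp only [List.mem_cons, List.not_mem_nil, or_false] at hx
            tauto
        rcases hx' with rfl | rfl | rfl
        · refine hsub _ hpm _ ?_
          rw [ext2_pm, mate_mate]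
          simp
        · refine hsub _ hpm _ ?_
          rw [ext2_pm, mate_mate]
          simp
        · exact hsub _ (hW.1 _ hrm) _ (mem_ext2 _ _ _ _ _ _)
      · rw [ext2_o _ _ _ _ _ h1 h2] at hx
        rw [List.mem_singleton.1 hx]
        exact hsub _ (hW.1 _ hq) _ (mem_ext2 _ _ _ _ _ _)
  · rw [List.map_flatMap, List.nodup_flatMap]
    constructor
    · intro q hq
      by_cases h1 : q = p.mate
      · have h3 := (hnew _ hpm)
        rw [mate_crossing] at h3
        rw [h1, ext2_pm]
        simp only [List.map_cons, List.map_nil, List.nodup_cons, List.mem_cons, Prod.mk.injEq,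
          List.not_mem_nil, or_false, not_false_eq_true, List.nodup_nil, and_true, pA, pB,
          mate_crossing]
        refine ⟨?_, ?_⟩
        · rintro (h | h)
          · exact hab h
          · exact h3.1 h.1.symm
        · rintro h
          exact h3.2 h.1.symm
      · by_cases h2 : q = r.mate
        · have h3 := (hnew _ hrm)
          rw [mate_crossing] at h3
          rw [h2, ext2_rm _ _ _ _ _ hpr]
          split_ifs
          · simp only [List.map_cons, List.map_nil, List.nodup_cons, List.mem_cons,
              Prod.mk.injEq, List.not_mem_nil, or_false, not_false_eq_true, List.nodup_nil,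
              and_true, pA, pB, mate_crossing]
            refine ⟨?_, ?_⟩
            · rintro (h | h)
              · exact hab h.1
              · exact h3.1 h.1.symm
            · rintro h
              exact h3.2 h.1.symm
          · simp only [List.map_cons, List.map_nil, List.nodup_cons, List.mem_cons,
              Prod.mk.injEq, List.not_mem_nil, or_false, not_false_eq_true, List.nodup_nil,
              and_true, pA, pB, mate_crossing]
            refine ⟨?_, ?_⟩
            · rintro (h | h)
              · exact h3.2 h.1
              · exact h3.1 h.1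
            · rintro h
              exact hab h.1.symm
        · rw [ext2_o _ _ _ _ _ h1 h2]
          simp
    · have hnd : (passes D).Nodup := List.Nodup.of_map _ hW.2
      refine List.Pairwise.imp_of_mem ?_ hnd
      intro q q' hq hq' hne
      have key : ∀ q0 ∈ passes D, ∀ y ∈ (ext2 p r tc na nb q0).map fun p => (p.crossing, p.isOver),
          y = (q0.crossing, q0.isOver) ∨
          (q0 = p.mate ∧ (y = (na, tc) ∨ y = (nb, tc))) ∨
          (q0 = r.mate ∧ (y = (na, !tc) ∨ y = (nb, !tc))) := by
        intro q0 hq0 y hy
        obtain ⟨x, hx, rfl⟩ := List.mem_map.1 hy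
        by_cases h1 : q0 = p.mate
        · rw [h1, ext2_pm] at hx
          simp only [List.mem_cons, List.not_mem_nil, or_false] at hx
          rcases hx with rfl | rfl | rfl
          · exact Or.inr (Or.inl ⟨h1, Or.inl rfl⟩)
          · exact Or.inr (Or.inl ⟨h1, Or.inr rfl⟩)
          · exact Or.inl (by rw [h1])
        · by_cases h2 : q0 = r.mate
          · rw [h2, ext2_rm _ _ _ _ _ hpr] at hx
            have hx' : x = (pA p r tc na).mate ∨ x = (pB p r tc nb).mate ∨ x = r.mate := by
              split_ifs at hx
              · simpa using hx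
              · simp only [List.mem_cons, List.not_mem_nil, or_false] at hx
                tauto
            rcases hx' with rfl | rfl | rfl
            · exact Or.inr (Or.inr ⟨h2, Or.inl rfl⟩)
            · exact Or.inr (Or.inr ⟨h2, Or.inr rfl⟩)
            · exact Or.inl (by rw [h2])
          · rw [ext2_o _ _ _ _ _ h1 h2] at hx
            rw [List.mem_singleton.1 hx]
            exact Or.inl rfl
      intro y hy hy'
      have k1 := key q hq y hy
      have k2 := key q' hq' y hy'
      have n1 := hnew q hq
      have n2 := hnew q' hq'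
      rcases k1 with k1 | ⟨k1, k1' | k1'⟩ | ⟨k1, k1' | k1'⟩ <;>
        rcases k2 with k2 | ⟨k2, k2' | k2'⟩ | ⟨k2, k2' | k2'⟩
      · exact hne (hW.eq_of hq hq' (congrArg Prod.fst (k1.symm.trans k2))
          (congrArg Prod.snd (k1.symm.trans k2)))
      · exact n1.1 (congrArg Prod.fst (k1.symm.trans k2'))
      · exact n1.2 (congrArg Prod.fst (k1.symm.trans k2'))
      · exact n1.1 (congrArg Prod.fst (k1.symm.trans k2'))
      · exact n1.2 (congrArg Prod.fst (k1.symm.trans k2'))
      · exact n2.1 (congrArg Prod.fst (k2.symm.trans k1'))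
      · exact hne (k1.trans k2.symm)
      · exact hne (k1.trans k2.symm)
      · have := congrArg Prod.snd (k1'.symm.trans k2')
        cases tc <;> cases this
      · exact hab (congrArg Prod.fst (k1'.symm.trans k2'))
      · exact n2.2 (congrArg Prod.fst (k2.symm.trans k1'))
      · exact hne (k1.trans k2.symm)
      · exact hne (k1.trans k2.symm)
      · exact hab (congrArg Prod.fst (k1'.symm.trans k2')).symm
      · have := congrArg Prod.snd (k1'.symm.trans k2')
        cases tc <;> cases this
      · exact n2.1 (congrArg Prod.fst (k2.symm.trans k1'))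
      · have := congrArg Prod.snd (k1'.symm.trans k2')
        cases tc <;> cases this
      · exact hab (congrArg Prod.fst (k1'.symm.trans k2'))
      · exact hne (k1.trans k2.symm)
      · exact hne (k1.trans k2.symm)
      · exact n2.2 (congrArg Prod.fst (k2.symm.trans k1'))
      · exact hab (congrArg Prod.fst (k1'.symm.trans k2')).symm
      · have := congrArg Prod.snd (k1'.symm.trans k2')
        cases tc <;> cases this
      · exact hne (k1.trans k2.symm)
      · exact hne (k1.trans k2.symm)

theorem planar_mid {D : Code} {p r : Pass} (tc : Bool) {C : List Pass × ℕ} {a c : List Pass}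
    {na nb : ℕ} (hW : WellFormed D) (hP : Planar D) (hC : C ∈ D) (hCe : C.1 = a ++ p :: r :: c)
    (hpr : p.crossing ≠ r.crossing) (hab : na ≠ nb)
    (hnew : ∀ q ∈ passes D, q.crossing ≠ na ∧ q.crossing ≠ nb) :
    Planar (mid p r tc na nb D) := by
  have hpD : p ∈ passes D := mem_passes.2 ⟨C, hC, by rw [hCe]; simp⟩
  have hrD : r ∈ passes D := mem_passes.2 ⟨C, hC, by rw [hCe]; simp⟩
  have hpm := hW.1 p hpD
  have hrm := hW.1 r hrD
  have hnd : (passes D).Nodup := List.Nodup.of_map _ hW.2
  have hadj := adj_all hnd hC hCe
  have n1 := hnew p hpD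
  have n2 := hnew r hrD
  -- inequalities
  have i1 : p ≠ r := fun h => hpr (by rw [h])
  have i2 : p ≠ p.mate := (mate_ne p).symm
  have i3 : r ≠ r.mate := (mate_ne r).symm
  have i4 : p ≠ r.mate := fun h =>
    hpr (congrArg Pass.crossing h : p.crossing = r.mate.crossing)
  have i5 : r ≠ p.mate := fun h =>
    hpr (congrArg Pass.crossing h : r.crossing = p.mate.crossing).symm
  have i6 : p.mate ≠ r.mate := fun h =>
    hpr (congrArg Pass.crossing h : p.mate.crossing = r.mate.crossing)
  intro b f hcl hcons
  have hcl' : ∀ C ∈ D, Closed b f (C.1.flatMap (ext2 p r tc na nb)) := fun C hC =>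
    hcl (C.1.flatMap (ext2 p r tc na nb), C.2) (by unfold mid; exact List.mem_map.2 ⟨C, hC, rfl⟩)
  have hblk : ∀ q ∈ passes D, ∃ s t, Run b f s (ext2 p r tc na nb q) t := by
    intro q hq
    obtain ⟨C, hC, hqC⟩ := mem_passes.1 hq
    obtain ⟨s, hs⟩ := hcl' C hC
    exact run_blk hs hqC
  have hmem : ∀ q ∈ passes D, ∀ x ∈ ext2 p r tc na nb q, b x + b x.mate = f x + f x.mate :=
    fun q hq x hx => hcons x (by rw [passes_mid]; exact List.mem_flatMap.2 ⟨q, hq, hx⟩)
  have cp := hmem p hpD p (mem_ext2 _ _ _ _ _ _)
  have cr := hmem r hrD r (mem_ext2 _ _ _ _ _ _)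
  have cA := hmem p.mate hpm (pA p r tc na) (by rw [ext2_pm]; simp)
  have cB := hmem p.mate hpm (pB p r tc nb) (by rw [ext2_pm]; simp)
  obtain ⟨s1, t1, h1⟩ := hblk _ hpm
  rw [ext2_pm] at h1
  obtain ⟨-, j1, j2, -⟩ := h1
  obtain ⟨s2, t2, h2⟩ := hblk _ hrm
  rw [ext2_rm _ _ _ _ _ hpr] at h2
  -- the flow on the old diagram
  have hcl1 : ∀ C ∈ D, Closed (bkD p r tc na b) (frD p r tc na f) C.1 := by
    intro C hC
    obtain ⟨s, hs⟩ := hcl' C hC
    refine ⟨s, run_unflat (fun q hq s t h => ?_) hs⟩
    unfold bkD frD
    by_cases h1 : q = p.mate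
    · rw [h1, ext2_pm] at h
      rw [h1, if_pos rfl, if_neg i6]
      exact ⟨h.1, h.2.2.2⟩
    · by_cases h2 : q = r.mate
      · rw [h2, ext2_rm _ _ _ _ _ hpr] at h
        rw [h2, if_neg i6.symm, if_pos rfl, if_pos rfl]
        split_ifs at h ⊢
        · exact ⟨h.1, h.2.2.2⟩
        · exact ⟨h.1, h.2.2.2⟩
      · rw [ext2_o _ _ _ _ _ h1 h2] at h
        rw [if_neg h1, if_neg h2, if_neg h2]
        exact ⟨h.1, h.2⟩
  have hnext : f p = b r := by
    have h := hcl1 C hC
    rw [hCe] at h
    have h3 := closed_next h
    unfold bkD frD at h3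
    rwa [if_neg i4, if_neg i5, if_neg i3] at h3
  set t : ℤ := b p + b (pA p r tc na) - f p.mate with ht
  set bk : Pass → ℤ := fun q => if q = r then t else bkD p r tc na b q with hbk
  set fr : Pass → ℤ := fun q => if q = p then t else frD p r tc na f q with hfr
  have hcl2 : ∀ C ∈ D, Closed bk fr C.1 := by
    intro C hC
    refine closed_modify i1 (hadj C hC) (fun q hq hne => ?_) (fun q hq hne => ?_) ?_ (hcl1 C hC)
    · rw [hbk]
      simp only [if_neg hne]
    · rw [hfr]
      simp only [if_neg hne]
    · rw [hbk, hfr]
      simp only [if_true]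
  have bkp : bk p = b p := by
    rw [hbk]
    simp only [bkD, if_neg i1, if_neg i2, if_neg i4]
  have bkr : bk r = t := by
    rw [hbk]
    simp only [if_true]
  have bkpm : bk p.mate = b (pA p r tc na) := by
    rw [hbk]
    simp only [bkD, if_neg i5.symm, if_true]
  have bkrm : bk r.mate = if par p r then b (pA p r tc na).mate else b r.mate := by
    rw [hbk]
    simp only [bkD, if_neg i3.symm, if_neg i6.symm, if_true]
  have frp : fr p = t := by
    rw [hfr]
    simp only [if_true]
  have frr : fr r = f r := by
    rw [hfr]
    simp only [frD, if_neg i1.symm, if_neg i3]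
  have frpm : fr p.mate = f p.mate := by
    rw [hfr]
    simp only [frD, if_neg i2.symm, if_neg i6]
  have frrm : fr r.mate = if par p r then f r.mate else f (pA p r tc na).mate := by
    rw [hfr]
    simp only [frD, if_neg i4.symm, if_true]
  have bko : ∀ q, q.crossing ≠ p.crossing → q.crossing ≠ r.crossing → bk q = b q ∧ fr q = f q := by
    intro q hq1 hq2
    have k1 : q ≠ p := fun h => hq1 (by rw [h])
    have k2 : q ≠ r := fun h => hq2 (by rw [h])
    have k3 : q ≠ p.mate := fun h => hq1 (by rw [h]; rfl)
    have k4 : q ≠ r.mate := fun h => hq2 (by rw [h]; rfl)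
    rw [hbk, hfr]
    simp only [bkD, frD, if_neg k1, if_neg k2, if_neg k3, if_neg k4, and_self]
  have mp : p.mate.mate = p := mate_mate p
  have mr : r.mate.mate = r := mate_mate r
  have hcr : bk r + bk r.mate = fr r + fr r.mate := by
    rw [bkr, bkrm, frr, frrm, ht]
    split_ifs at h2 ⊢ with hpar
    · obtain ⟨-, k1, k2, -⟩ := h2
      omega
    · obtain ⟨-, k1, k2, -⟩ := h2
      omega
  have hcp : bk p + bk p.mate = fr p + fr p.mate := by
    rw [bkp, bkpm, frp, frpm, ht]
    omega
  obtain ⟨u, hu1, hu2⟩ := hP bk fr hcl2 (by
    intro q hq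
    by_cases hq1 : q.crossing = p.crossing
    · rcases hW.eq_mate hpD hq hq1 with rfl | rfl
      · exact hcp
      · rw [mp]
        omega
    · by_cases hq2 : q.crossing = r.crossing
      · rcases hW.eq_mate hrD hq hq2 with rfl | rfl
        · exact hcr
        · rw [mr]
          omega
      · rw [(bko q hq1 hq2).1, (bko q hq1 hq2).2, (bko q.mate hq1 hq2).1,
          (bko q.mate hq1 hq2).2]
        exact hmem q hq q (mem_ext2 _ _ _ _ _ _))
  have hn := hu1 C hC
  rw [hCe] at hn
  have hn := closed_next hn
  simp only [Prod.mk.injEq] at hn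
  obtain ⟨e1, e2⟩ := hn
  obtain ⟨up1, up2⟩ := hu2 p hpD
  obtain ⟨um1, um2⟩ := hu2 p.mate hpm
  obtain ⟨ur1, ur2⟩ := hu2 r hrD
  obtain ⟨us1, us2⟩ := hu2 r.mate hrm
  rw [bkp] at up1
  rw [frp] at up2
  rw [bkpm] at um1
  rw [frpm] at um2
  rw [bkr] at ur1
  rw [frr] at ur2
  rw [bkrm] at us1
  rw [frrm] at us2
  set tri : ℤ := if sg p then u (p.corner false (!sg p)) - f (pB p r tc nb)
    else u (p.corner false (!sg p)) + f (pB p r tc nb) with htri
  set bet : ℤ := if sg p then u (r.corner true (!sg p)) + f (pA p r tc na)
    else u (r.corner true (!sg p)) - f (pA p r tc na) with hbet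
  set v := nu p r tc na nb u tri bet with hv
  have vp : ∀ f l, v (p.corner f l) = if (f, l) = (true, !sg p) then tri else u (p.corner f l) :=
    nu_p p r tc na nb u tri bet
  have vr : ∀ f l, v (r.corner f l) = if (f, l) = (false, !sg p) then tri else u (r.corner f l) :=
    nu_r p r tc na nb u tri bet hpr
  have vA := nu_A p r tc na nb u tri bet n1.1 n2.1
  have vB := nu_B p r tc na nb u tri bet n1.2 n2.2 hab
  rw [← hv] at vA vB
  have vo : ∀ q : Pass, q.crossing ≠ p.crossing → q.crossing ≠ r.crossing → q ∈ passes D →
      ∀ f l, v (q.corner f l) = u (q.corner f l) := fun q hq1 hq2 hq =>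
    nu_o p r tc na nb u tri bet hq1 hq2 (hnew q hq).1 (hnew q hq).2
  have sA : sg (pA p r tc na) = sg r := sg_A p r tc na
  have sB : sg (pB p r tc nb) = !sg r := sg_B p r tc nb
  rw [par_eq] at us1 us2 h2
  clear_value v tri bet t
  have hpar1 : sg p = sg r → f (pA p r tc na).mate = b (pB p r tc nb).mate ∧
      f (pB p r tc nb).mate = b r.mate := by
    intro h
    rw [h, beq_self_eq_true, if_pos rfl] at h2
    exact ⟨h2.2.1, h2.2.2.1⟩
  have hpar2 : sg p ≠ sg r → f r.mate = b (pB p r tc nb).mate ∧
      f (pB p r tc nb).mate = b (pA p r tc na).mate := by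
    intro h
    rw [if_neg (by simpa using h)] at h2
    exact ⟨h2.2.1, h2.2.2.1⟩
  -- the assertions at the special passages
  have keyD : ∀ x : Pass, (x = p ∨ x = p.mate ∨ x = r ∨ x = r.mate ∨ x = pA p r tc na ∨
      x = (pA p r tc na).mate ∨ x = pB p r tc nb ∨ x = (pB p r tc nb).mate) →
      v (x.corner false true) - v (x.corner false false) = b x ∧
      v (x.corner true true) - v (x.corner true false) = f x := by
    clear hv bkp bkr bkpm bkrm frp frr frpm frrm hcr hcp bko hu1 hu2 hn h2 hblk hmem hcl hcons hcl'
      hcl1 hcl2 hadj hnd vo hnew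
    cases hσ : sg p <;> cases hρ : sg r <;>
      simp [hσ, hρ, mate_corner] at um1 um2 us1 us2 htri hbet hpar1 hpar2 <;>
      rintro x (rfl | rfl | rfl | rfl | rfl | rfl | rfl | rfl) <;>
      simp [mate_corner, hσ, hρ, sA, sB, vp, vr, vA, vB] <;> omega
  have keyA : (u (p.mate.corner false true), u (p.mate.corner false false)) =
      (v ((pA p r tc na).corner false true), v ((pA p r tc na).corner false false)) ∧
      (v ((pA p r tc na).corner true true), v ((pA p r tc na).corner true false)) =
      (v ((pB p r tc nb).corner false true), v ((pB p r tc nb).corner false false)) ∧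
      (v ((pB p r tc nb).corner true true), v ((pB p r tc nb).corner true false)) =
      (v (p.mate.corner false true), v (p.mate.corner false false)) ∧
      (v (p.mate.corner true true), v (p.mate.corner true false)) =
      (u (p.mate.corner true true), u (p.mate.corner true false)) := by
    cases hσ : sg p <;> simp [mate_corner, hσ, vp, vA, vB]
  have keyB1 : sg p = sg r → (u (r.mate.corner false true), u (r.mate.corner false false)) =
      (v ((pA p r tc na).mate.corner false true), v ((pA p r tc na).mate.corner false false)) ∧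
      (v ((pA p r tc na).mate.corner true true), v ((pA p r tc na).mate.corner true false)) =
      (v ((pB p r tc nb).mate.corner false true), v ((pB p r tc nb).mate.corner false false)) ∧
      (v ((pB p r tc nb).mate.corner true true), v ((pB p r tc nb).mate.corner true false)) =
      (v (r.mate.corner false true), v (r.mate.corner false false)) ∧
      (v (r.mate.corner true true), v (r.mate.corner true false)) =
      (u (r.mate.corner true true), u (r.mate.corner true false)) := by
    cases hσ : sg p <;> cases hρ : sg r <;>
      simp [mate_corner, hσ, hρ, sA, sB, vr, vA, vB, e1, e2]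
  have keyB2 : sg p ≠ sg r → (u (r.mate.corner false true), u (r.mate.corner false false)) =
      (v (r.mate.corner false true), v (r.mate.corner false false)) ∧
      (v (r.mate.corner true true), v (r.mate.corner true false)) =
      (v ((pB p r tc nb).mate.corner false true), v ((pB p r tc nb).mate.corner false false)) ∧
      (v ((pB p r tc nb).mate.corner true true), v ((pB p r tc nb).mate.corner true false)) =
      (v ((pA p r tc na).mate.corner false true), v ((pA p r tc na).mate.corner false false)) ∧
      (v ((pA p r tc na).mate.corner true true), v ((pA p r tc na).mate.corner true false)) =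
      (u (r.mate.corner true true), u (r.mate.corner true false)) := by
    cases hσ : sg p <;> cases hρ : sg r <;>
      simp [mate_corner, hσ, hρ, sA, sB, vr, vA, vB, e1, e2]
  have keyp : (v (p.corner true true), v (p.corner true false)) =
      (v (r.corner false true), v (r.corner false false)) := by
    cases hσ : sg p <;> simp [hσ, vp, vr, e1, e2]
  have keyp1 : (v (p.corner false true), v (p.corner false false)) =
      (u (p.corner false true), u (p.corner false false)) := by
    cases hσ : sg p <;> simp [hσ, vp]
  have keyr1 : (v (r.corner true true), v (r.corner true false)) =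
      (u (r.corner true true), u (r.corner true false)) := by
    cases hσ : sg p <;> simp [hσ, vr]
  refine ⟨v, ?_, ?_⟩
  · intro C' hC'
    unfold mid at hC'
    obtain ⟨C0, hC0, rfl⟩ := List.mem_map.1 hC'
    have h3 := closed_modify
      (back' := fun q : Pass => if q = r then (v (r.corner false true), v (r.corner false false))
        else (u (q.corner false true), u (q.corner false false)))
      (front' := fun q : Pass => if q = p then (v (p.corner true true), v (p.corner true false))
        else (u (q.corner true true), u (q.corner true false))) i1 (hadj C0 hC0)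
      (fun q hq hne => by simp only [if_neg hne]) (fun q hq hne => by simp only [if_neg hne])
      (by simp only [if_true]; exact keyp) (hu1 C0 hC0)
    obtain ⟨s, hs⟩ := h3
    refine ⟨s, run_flat (fun q hq => ?_) hs⟩
    have hqD : q ∈ passes D := mem_passes.2 ⟨C0, hC0, hq⟩
    by_cases hq1 : q = p.mate
    · rw [hq1, ext2_pm, if_neg i5.symm, if_neg i2.symm]
      exact ⟨keyA.1, keyA.2.1, keyA.2.2.1, keyA.2.2.2⟩
    · by_cases hq2 : q = r.mate
      · rw [hq2, ext2_rm _ _ _ _ _ hpr, if_neg i3.symm, if_neg i4.symm, par_eq]
        split_ifs with hpar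
        · have hk := keyB1 (by simpa using hpar)
          exact ⟨hk.1, hk.2.1, hk.2.2.1, hk.2.2.2⟩
        · have hk := keyB2 (by simpa using hpar)
          exact ⟨hk.1, hk.2.1, hk.2.2.1, hk.2.2.2⟩
      · rw [ext2_o _ _ _ _ _ hq1 hq2]
        by_cases hq3 : q.crossing = p.crossing
        · rcases hW.eq_mate hpD hqD hq3 with rfl | h
          · rw [if_neg i1, if_pos rfl]
            exact ⟨keyp1.symm, rfl⟩
          · exact absurd h hq1
        · by_cases hq4 : q.crossing = r.crossing
          · rcases hW.eq_mate hrD hqD hq4 with rfl | h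
            · rw [if_pos rfl, if_neg i1.symm]
              exact ⟨rfl, keyr1⟩
            · exact absurd h hq2
          · have k1 : q ≠ p := fun h => hq3 (by rw [h])
            have k2 : q ≠ r := fun h => hq4 (by rw [h])
            rw [if_neg k1, if_neg k2]
            have ho := vo q hq3 hq4 hqD
            refine ⟨?_, ?_⟩
            · change _ = (v (q.corner false true), v (q.corner false false))
              rw [ho, ho]
            · change (v (q.corner true true), v (q.corner true false)) = _
              rw [ho, ho]
  · intro x hx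
    rw [passes_mid] at hx
    obtain ⟨q, hq, hx⟩ := List.mem_flatMap.1 hx
    by_cases hq1 : q = p.mate
    · rw [hq1, ext2_pm] at hx
      simp only [List.mem_cons, List.not_mem_nil, or_false] at hx
      rcases hx with h | h | h
      · exact keyD x (Or.inr (Or.inr (Or.inr (Or.inr (Or.inl h)))))
      · exact keyD x (Or.inr (Or.inr (Or.inr (Or.inr (Or.inr (Or.inr (Or.inl h)))))))
      · exact keyD x (Or.inr (Or.inl h))
    · by_cases hq2 : q = r.mate
      · rw [hq2, ext2_rm _ _ _ _ _ hpr] at hx
        split_ifs at hx
        · simp only [List.mem_cons, List.not_mem_nil, or_false] at hx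
          rcases hx with h | h | h
          · exact keyD x (Or.inr (Or.inr (Or.inr (Or.inr (Or.inr (Or.inl h))))))
          · exact keyD x (Or.inr (Or.inr (Or.inr (Or.inr (Or.inr (Or.inr (Or.inr h)))))))
          · exact keyD x (Or.inr (Or.inr (Or.inr (Or.inl h))))
        · simp only [List.mem_cons, List.not_mem_nil, or_false] at hx
          rcases hx with h | h | h
          · exact keyD x (Or.inr (Or.inr (Or.inr (Or.inl h))))
          · exact keyD x (Or.inr (Or.inr (Or.inr (Or.inr (Or.inr (Or.inr (Or.inr h)))))))
          · exact keyD x (Or.inr (Or.inr (Or.inr (Or.inr (Or.inr (Or.inl h))))))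
      · rw [ext2_o _ _ _ _ _ hq1 hq2] at hx
        obtain rfl := List.mem_singleton.1 hx
        by_cases hq3 : x.crossing = p.crossing
        · rcases hW.eq_mate hpD hq hq3 with h | h
          · exact keyD x (Or.inl h)
          · exact absurd h hq1
        · by_cases hq4 : x.crossing = r.crossing
          · rcases hW.eq_mate hrD hq hq4 with h | h
            · exact keyD x (Or.inr (Or.inr (Or.inl h)))
            · exact absurd h hq2
          · have ho := vo x hq3 hq4 hq
            rw [ho, ho, ho, ho]
            have hu := hu2 x hq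
            rw [(bko x hq3 hq4).1, (bko x hq3 hq4).2] at hu
            exact hu

theorem mid_planar : S_MID := by
  intro D p r tc C a c na nb hD hC hCe hpr hab hnew
  have hpD : p ∈ passes D := mem_passes.2 ⟨C, hC, by rw [hCe]; simp⟩
  have hrD : r ∈ passes D := mem_passes.2 ⟨C, hC, by rw [hCe]; simp⟩
  exact ⟨wf_mid tc hD.1 hpD hrD hpr hab hnew, planar_mid tc hD.1 hD.2 hC hCe hpr hab hnew⟩

end Pool.Agent.Y333.TP
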